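import Pool.Agent.W516.MTH.Sv

/-!
# The dimension conjecture for the periods of mixed Tate motives

For a mixed Tate motive over `ℤ`, in each weight the space of the periods has the dimension of the
space of the motivic periods if and only if the linear relations with rational coefficients between
periods of the same weight are multiplicative, and if and only if they are stable under the
single-valued element `p⁻¹ p̄` of the motivic Galois group.
-/

set_option autoImplicit false

namespace Pool.Agent.Results.MP_56e040_nt.HomogeneousTorsor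

open Pool.Agent.W516.MTZ Pool.Agent.W516.MTH

theorem result (m X : Type) [Fintype m] [DecidableEq m] [Fintype X] [DecidableEq X]
    (M : Motive m X) (p : (Matrix m m ℂ)ˣ) (hp : p ∈ M.gp)
    (hdeg : ∀ x, Odd (M.deg x) ∧ 3 ≤ M.deg x) (hinj : Function.Injective M.deg)
    (hpi : (p : Matrix m m ℂ) M.t M.t = 2 * Real.pi * Complex.I)
    (hzeta : ∀ x, (p : Matrix m m ℂ) M.o (M.s x) = riemannZeta (M.deg x)) :
    (DimensionConjecture M (p : Matrix m m ℂ) ↔ ∀ A B : Matrix m m ℂ,
      Satisfies M (p : Matrix m m ℂ) (p * A) → Satisfies M (p : Matrix m m ℂ) (p * B) →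
        Satisfies M (p : Matrix m m ℂ) (p * (A * B))) ∧
    (DimensionConjecture M (p : Matrix m m ℂ) ↔ ∀ B : Matrix m m ℂ,
      Satisfies M (p : Matrix m m ℂ) B → Satisfies M (p : Matrix m m ℂ)
        (B * ((p⁻¹ : (Matrix m m ℂ)ˣ) * (p : Matrix m m ℂ).map (starRingEnd ℂ)))) :=
  main_sv hp hdeg hinj hpi hzeta

end Pool.Agent.Results.MP_56e040_nt.HomogeneousTorsor
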